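import Pool.Agent.Lib.MP_2148a5_lc.Spec

/-!
# MP_2148a5_lc: module RES
-/

set_option autoImplicit false

namespace Pool.Agent.Lib.MP2148a5

open Set Filter Topology MeasureTheory Cardinal

namespace RESM

theorem isOpen_res (I : ℕ → Finset ℕ) (n : ℕ) (A : Set ((I n) → Bool)) :
    IsOpen {x : Cantor | res I x n ∈ A} := by
  have hc : Continuous fun x : Cantor => res I x n := by
    unfold res
    exact continuous_pi fun i => continuous_apply i.1
  exact (isOpen_discrete A).preimage hc

open Classical in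
/-- change `x` on `I n` to `w` -/
noncomputable def chg (I : ℕ → Finset ℕ) (x : Cantor) (n : ℕ) (w : (I n) → Bool) : Cantor :=
  fun i => if h : i ∈ I n then w ⟨i, h⟩ else x i

theorem res_chg (I : ℕ → Finset ℕ) (x : Cantor) (n : ℕ) (w : (I n) → Bool) :
    res I (chg I x n w) n = w := by
  funext i
  simp [res, chg, i.2]

end RESM

open RESM in
theorem specRES : SpecRES := by
  intro I hI φ hφ
  have h1 : infSet I φ = ⋂ m : ℕ, ⋃ n : ℕ, ⋃ _ : m ≤ n, {x : Cantor | res I x n ∈ φ n} := by
    ext x
    simp [infSet, frequently_atTop]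
  rw [h1]
  refine countable_iInter_mem.2 fun m => ?_
  have ho : IsOpen (⋃ n : ℕ, ⋃ _ : m ≤ n, {x : Cantor | res I x n ∈ φ n}) :=
    isOpen_iUnion fun n => isOpen_iUnion fun _ => isOpen_res I n (φ n)
  refine residual_of_dense_open ho ?_
  intro x
  -- a sequence in the union converging to `x`
  have h2 : ∀ N : ℕ, ∃ n : ℕ, N ≤ n ∧ m ≤ n ∧ (φ n).Nonempty := by
    intro N
    obtain ⟨n, hn, hn'⟩ := frequently_atTop.1 hφ (max N m)
    exact ⟨n, le_trans (le_max_left _ _) hn, le_trans (le_max_right _ _) hn, hn'⟩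
  choose n hn hmn hne using h2
  choose w hw using hne
  refine mem_closure_of_tendsto (f := fun N => chg I x (n N) (w N)) (b := atTop) ?_ ?_
  · rw [tendsto_pi_nhds]
    intro i
    obtain ⟨k, hk⟩ := hI.cover i
    refine tendsto_const_nhds.congr' ?_
    filter_upwards [eventually_gt_atTop k] with N hN
    have hne : n N ≠ k := by
      have := hn N
      omega
    have hi : i ∉ I (n N) := by
      intro hi
      exact Finset.disjoint_left.1 (hI.disj _ _ hne) hi hk
    simp [chg, hi]
  · refine Eventually.of_forall fun N => ?_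
    refine mem_iUnion.2 ⟨n N, mem_iUnion.2 ⟨hmn N, ?_⟩⟩
    show res I (chg I x (n N) (w N)) (n N) ∈ φ (n N)
    rw [res_chg]
    exact hw N

end Pool.Agent.Lib.MP2148a5
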