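import Pool.Agent.Lib.MP_2148a5_lc.INC

/-!
# MP_2148a5_lc: module TUK
-/

set_option autoImplicit false

namespace Pool.Agent.Lib.MP2148a5

open Set Filter Topology MeasureTheory Cardinal

namespace TUKM

/-- `F j = ∑_(i < j) (f i + 1)` -/
def FF (f : ℕ → ℕ) (j : ℕ) : ℕ := ∑ i ∈ Finset.range j, (f i + 1)

theorem FF_succ (f : ℕ → ℕ) (j : ℕ) : FF f (j + 1) = FF f j + f j + 1 := by
  rw [FF, Finset.sum_range_succ]
  rfl

theorem FF_zero (f : ℕ → ℕ) : FF f 0 = 0 := by simp [FF]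

theorem FF_mono (f : ℕ → ℕ) : StrictMono (FF f) :=
  strictMono_nat_of_lt_succ fun j => by rw [FF_succ]; omega

theorem le_FF (f : ℕ → ℕ) (j : ℕ) : j ≤ FF f j := (FF_mono f).le_apply

/-- the largest `j ≤ k` with `F j ≤ k` -/
def JJ (f : ℕ → ℕ) (k : ℕ) : ℕ := Nat.findGreatest (fun j => FF f j ≤ k) k

theorem JJ_le (f : ℕ → ℕ) (k : ℕ) : JJ f k ≤ k := Nat.findGreatest_le k

theorem JJ_ge (f : ℕ → ℕ) {j k : ℕ} (h : FF f j ≤ k) : j ≤ JJ f k :=
  Nat.le_findGreatest ((le_FF f j).trans h) h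

theorem JJ_spec (f : ℕ → ℕ) (k : ℕ) : FF f (JJ f k) ≤ k :=
  Nat.findGreatest_spec (P := fun j => FF f j ≤ k) (m := 0) (Nat.zero_le _)
    (by simp [FF_zero])

theorem JJ_eq (f : ℕ → ℕ) (j : ℕ) : JJ f (FF f (j + 1) - 1) = j := by
  have h1 := FF_succ f j
  refine le_antisymm ?_ (JJ_ge f (by omega))
  have h2 := JJ_spec f (FF f (j + 1) - 1)
  have h3 : FF f (JJ f (FF f (j + 1) - 1)) < FF f (j + 1) := by omega
  have h4 := (FF_mono f).lt_iff_lt.1 h3
  omega

theorem exists_sub (s : Finset ℕ) (m : ℕ) :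
    ∃ t : Set (s → Bool), t.ncard = min (2 ^ s.card) m := by
  obtain ⟨t, _, ht⟩ := Finset.exists_subset_card_eq
    (s := (Finset.univ : Finset (s → Bool))) (n := min (2 ^ s.card) m) (by simp)
  exact ⟨t, by rw [Set.ncard_coe_finset, ht]⟩

end TUKM

open TUKM in
theorem specTUK : SpecTUK := by
  intro I ε hI hε hs hunb
  have hpos : ∀ n, (0 : ℝ) < 2 ^ (I n).card * ε n := fun n => by
    have := hε n
    positivity
  obtain ⟨nk, hnk, hnk'⟩ := extraction_forall_of_frequently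
    (P := fun k n => ((k : ℝ) + 1) ≤ 2 ^ (I n).card * ε n) fun k => hunb _
  classical
  -- the sets
  have hΦ : ∀ (f : ℕ → ℕ) (n : ℕ), ∃ t : Set ((I n) → Bool),
      (∀ k, nk k = n → t.ncard = min (2 ^ (I n).card)
        ⌊(2 ^ (I n).card * ε n) / ((JJ f k : ℝ) + 1)⌋₊) ∧
      ((∀ k, nk k ≠ n) → t = ∅) := by
    intro f n
    by_cases h : ∃ k, nk k = n
    · obtain ⟨k, hk⟩ := h
      obtain ⟨t, ht⟩ := exists_sub (I n) ⌊(2 ^ (I n).card * ε n) / ((JJ f k : ℝ) + 1)⌋₊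
      refine ⟨t, fun k' hk' => ?_, fun h => absurd hk (h k)⟩
      have : k' = k := hnk.injective (hk'.trans hk.symm)
      rw [this]
      exact ht
    · push Not at h
      exact ⟨∅, fun k hk => absurd hk (h k), fun _ => rfl⟩
  choose Φ hΦ1 hΦ2 using hΦ
  have hG : ∀ (ψ : ∀ n, Set ((I n) → Bool)) (j : ℕ), ∃ K : ℕ,
      (∃ K' : ℕ, ∀ k ≥ K', ((ψ (nk k)).ncard : ℝ) / (2 ^ (I (nk k)).card * ε (nk k)) <
        1 / (2 * ((j : ℝ) + 1))) →
      ∀ k ≥ K, ((ψ (nk k)).ncard : ℝ) / (2 ^ (I (nk k)).card * ε (nk k)) <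
        1 / (2 * ((j : ℝ) + 1)) := by
    intro ψ j
    by_cases h : ∃ K' : ℕ, ∀ k ≥ K', ((ψ (nk k)).ncard : ℝ) /
        (2 ^ (I (nk k)).card * ε (nk k)) < 1 / (2 * ((j : ℝ) + 1))
    · obtain ⟨K', hK'⟩ := h
      exact ⟨K', fun _ => hK'⟩
    · exact ⟨0, fun h' => absurd h' h⟩
  choose G hG using hG
  refine ⟨Φ, G, fun f => ?_, fun f ψ hψ hsub => ?_⟩
  · -- `Φ f ∈ Σ`
    refine tendsto_order.2 ⟨fun a ha => Eventually.of_forall fun n => ?_, fun e he => ?_⟩
    · exact lt_of_lt_of_le ha (div_nonneg (Nat.cast_nonneg _) (hpos n).le)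
    · obtain ⟨j, hj⟩ := exists_nat_one_div_lt he
      filter_upwards [eventually_ge_atTop (nk (FF f j))] with n hn
      by_cases h : ∃ k, nk k = n
      · obtain ⟨k, rfl⟩ := h
        have hk : FF f j ≤ k := hnk.le_iff_le.1 hn
        have hJ : j ≤ JJ f k := JJ_ge f hk
        rw [hΦ1 f (nk k) k rfl]
        have h0 := hpos (nk k)
        have h1 : ((min (2 ^ (I (nk k)).card)
            ⌊(2 ^ (I (nk k)).card * ε (nk k)) / ((JJ f k : ℝ) + 1)⌋₊ : ℕ) : ℝ) ≤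
            (2 ^ (I (nk k)).card * ε (nk k)) / ((JJ f k : ℝ) + 1) := by
          refine le_trans (Nat.cast_le.2 (min_le_right _ _)) (Nat.floor_le ?_)
          positivity
        refine lt_of_le_of_lt ?_ hj
        rw [div_le_iff₀ h0]
        refine le_trans h1 ?_
        have h2 : (j : ℝ) ≤ (JJ f k : ℝ) := by exact_mod_cast hJ
        rw [div_eq_mul_one_div, mul_comm]
        refine mul_le_mul_of_nonneg_right ?_ h0.le
        exact one_div_le_one_div_of_le (by positivity) (by linarith)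
      · push Not at h
        rw [hΦ2 f n h]
        simpa using he
  · -- the bound
    have h1 : ∀ᶠ k in atTop, Φ f (nk k) ⊆ ψ (nk k) ∧
        (ψ (nk k)).ncard < 2 ^ (I (nk k)).card :=
      hnk.tendsto_atTop.eventually (hsub.and (INCM.small I ε hε hs ψ hψ))
    obtain ⟨K₀, hK₀⟩ := eventually_atTop.1 h1
    filter_upwards [eventually_ge_atTop K₀] with j hj
    have hG' := hG ψ j (by
      have h2 : Tendsto (fun k => ((ψ (nk k)).ncard : ℝ) /
          (2 ^ (I (nk k)).card * ε (nk k))) atTop (𝓝 0) := hψ.comp hnk.tendsto_atTop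
      exact eventually_atTop.1 (h2.eventually_lt_const (by positivity)))
    have h3 := FF_succ f j
    have h4 := le_FF f j
    have hkj : j ≤ FF f (j + 1) - 1 := by omega
    have hk := JJ_eq f j
    obtain ⟨k, hkdef⟩ : ∃ k, k = FF f (j + 1) - 1 := ⟨_, rfl⟩
    rw [← hkdef] at hk hkj
    have hfk : f j ≤ k := by omega
    refine le_trans hfk (le_of_lt ?_)
    by_contra hc
    have hlt := hG' k (not_lt.1 hc)
    obtain ⟨hs1, hs2⟩ := hK₀ k (hj.trans hkj)
    have h5 : (Φ f (nk k)).ncard ≤ (ψ (nk k)).ncard :=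
      Set.ncard_le_ncard hs1 (Set.toFinite _)
    rw [hΦ1 f (nk k) k rfl, hk] at h5
    have h6 : ⌊(2 ^ (I (nk k)).card * ε (nk k)) / ((j : ℝ) + 1)⌋₊ ≤ (ψ (nk k)).ncard := by
      rcases min_le_iff.1 h5 with h | h
      · exact absurd h (not_le.2 hs2)
      · exact h
    have h7 : (1 : ℝ) ≤ (2 ^ (I (nk k)).card * ε (nk k)) / ((j : ℝ) + 1) := by
      rw [le_div_iff₀ (by positivity), one_mul]
      refine le_trans ?_ (hnk' k)
      have : (j : ℝ) ≤ (k : ℝ) := by exact_mod_cast hkj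
      linarith
    have h8 := Nat.div_two_lt_floor h7
    have h9 : (2 ^ (I (nk k)).card * ε (nk k)) / ((j : ℝ) + 1) / 2 < ((ψ (nk k)).ncard : ℝ) :=
      lt_of_lt_of_le h8 (by exact_mod_cast h6)
    rw [div_lt_iff₀ (hpos (nk k))] at hlt
    have h10 : (2 ^ (I (nk k)).card * ε (nk k)) / ((j : ℝ) + 1) / 2 =
        1 / (2 * ((j : ℝ) + 1)) * (2 ^ (I (nk k)).card * ε (nk k)) := by
      field_simp
    rw [h10] at h9
    exact absurd hlt (not_lt.2 h9.le)

end Pool.Agent.Lib.MP2148a5
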