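import Pool.Agent.Lib.MP_2148a5_lc.MNU
import Pool.Agent.Lib.MP_2148a5_lc.RES
import Pool.Agent.Lib.MP_2148a5_lc.TUK

/-!
# MP_2148a5_lc: module CAR
-/

set_option autoImplicit false

namespace Pool.Agent.Lib.MP2148a5

open Set Filter Topology MeasureTheory Cardinal

namespace CARM

/-- the translate of `φ` by `y` -/
def tr (I : ℕ → Finset ℕ) (φ : ∀ n, Set ((I n) → Bool)) (y : Cantor) (n : ℕ) :
    Set ((I n) → Bool) := {w | (fun i => xor (w i) (y i.1)) ∈ φ n}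

theorem tr_eq (I : ℕ → Finset ℕ) (φ : ∀ n, Set ((I n) → Bool)) (y : Cantor) (n : ℕ) :
    tr I φ y n = (fun (w : (I n) → Bool) i => xor (w i) (y i.1)) '' φ n := by
  ext w
  constructor
  · intro h
    refine ⟨fun i => xor (w i) (y i.1), h, ?_⟩
    funext i
    simp
  · rintro ⟨v, hv, rfl⟩
    show (fun i => xor (xor (v i) (y i.1)) (y i.1)) ∈ φ n
    simpa using hv

theorem tr_ncard (I : ℕ → Finset ℕ) (φ : ∀ n, Set ((I n) → Bool)) (y : Cantor) (n : ℕ) :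
    (tr I φ y n).ncard = (φ n).ncard := by
  rw [tr_eq]
  refine Set.ncard_image_of_injective _ fun v w h => ?_
  funext i
  have := congrFun h i
  simpa using this

theorem tr_sig {I : ℕ → Finset ℕ} {ε : ℕ → ℝ} {φ : ∀ n, Set ((I n) → Bool)} (h : Sig I ε φ)
    (y : Cantor) : Sig I ε (tr I φ y) := by
  unfold Sig
  simp only [tr_ncard]
  exact h

theorem tr_ne {I : ℕ → Finset ℕ} {φ : ∀ n, Set ((I n) → Bool)}
    (h : ∃ᶠ n in atTop, (φ n).Nonempty) (y : Cantor) :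
    ∃ᶠ n in atTop, (tr I φ y n).Nonempty := by
  refine h.mono fun n hn => ?_
  rw [tr_eq]
  exact hn.image _

theorem tr_symm (I : ℕ → Finset ℕ) (φ : ∀ n, Set ((I n) → Bool)) (x y : Cantor) :
    x ∈ infSet I (tr I φ y) ↔ y ∈ infSet I (tr I φ x) := by
  have h : ∀ n, res I x n ∈ tr I φ y n ↔ res I y n ∈ tr I φ x n := by
    intro n
    have h1 : (fun i : I n => xor (res I x n i) (y i.1)) =
        fun i : I n => xor (res I y n i) (x i.1) := by
      funext i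
      exact Bool.xor_comm _ _
    show (fun i : I n => xor (res I x n i) (y i.1)) ∈ φ n ↔
      (fun i : I n => xor (res I y n i) (x i.1)) ∈ φ n
    rw [h1]
  simp only [infSet, Set.mem_ofPred_eq, h]

theorem univ_not_meagre : (Set.univ : Set Cantor) ∉ MM := by
  intro h
  have h1 : (∅ : Set Cantor) ∈ residual Cantor := by
    have h2 : (Set.univ : Set Cantor)ᶜ ∈ residual Cantor := h
    rwa [Set.compl_univ] at h2
  have h3 : Dense (∅ : Set Cantor) := dense_of_mem_residual h1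
  obtain ⟨x, hx⟩ := h3.nonempty
  exact hx

theorem univ_not_null : (Set.univ : Set Cantor) ∉ NN := by
  intro h
  have h1 : coinMeas (Set.univ : Set Cantor) = 0 := h
  have h2 : coinMeas (Set.univ : Set Cantor) = 1 := by
    unfold coinMeas
    exact measure_univ
  rw [h2] at h1
  exact one_ne_zero h1

theorem meagre_iff (A : Set Cantor) : Aᶜ ∈ MM ↔ A ∈ residual Cantor := by
  show (Aᶜ)ᶜ ∈ residual Cantor ↔ _
  rw [compl_compl]

end CARM

open CARM in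
theorem specCAR : SpecCAR := by
  intro I ε hI hε hs hsing
  have hpos : ∀ n, (0 : ℝ) < 2 ^ (I n).card * ε n := fun n => by
    have := hε n
    positivity
  have hSN : SI I ε ⊆ NN := by
    rintro X ⟨φ, hφ, hX⟩
    exact measure_mono_null hX (specNUL I ε hI hε hs φ hφ)
  -- one `φ₀` which is nonempty infinitely often
  obtain ⟨φ₀, hφ₀, hx₀⟩ := hsing fun _ => false
  have hne : ∃ᶠ n in atTop, (φ₀ n).Nonempty := by
    have h1 : (fun _ => false : Cantor) ∈ infSet I φ₀ := hx₀ rfl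
    exact h1.mono fun n hn => ⟨_, hn⟩
  have hunb : ∀ C : ℝ, ∃ᶠ n in atTop, C ≤ 2 ^ (I n).card * ε n := by
    intro C
    have h1 : ∀ᶠ n in atTop, ((φ₀ n).ncard : ℝ) / (2 ^ (I n).card * ε n) < 1 / max C 1 :=
      hφ₀.eventually_lt_const (by positivity)
    refine (hne.and_eventually h1).mono ?_
    rintro n ⟨hn, hn'⟩
    have h2 : (1 : ℝ) ≤ ((φ₀ n).ncard : ℝ) := by
      exact_mod_cast (Set.ncard_pos (Set.toFinite _)).2 hn
    rw [div_lt_iff₀ (hpos n), div_mul_eq_mul_div, one_mul,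
      lt_div_iff₀ (by positivity)] at hn'
    have h3 : max C 1 ≤ ((φ₀ n).ncard : ℝ) * max C 1 :=
      le_mul_of_one_le_left (by positivity) h2
    exact (le_max_left C 1).trans (h3.trans hn'.le)
  obtain ⟨Φ, G, hΦ, hG⟩ := specTUK I ε hI hε hs hunb
  have hG' : ∀ f ψ, Sig I ε ψ → infSet I (Φ f) ⊆ infSet I ψ → ∀ᶠ n in atTop, f n ≤ G ψ n :=
    fun f ψ hψ h => hG f ψ hψ (specINC I ε hI hε hs (Φ f) ψ hψ h)
  refine ⟨?_, ⟨?_, ?_⟩, ⟨?_, ?_⟩, ?_⟩
  · -- `add(S) ≤ b`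
    have hb : {κ : Cardinal | ∃ F : Set (ℕ → ℕ), #F = κ ∧
        ∀ g : ℕ → ℕ, ∃ f ∈ F, ¬ ∀ᶠ n in atTop, f n ≤ g n}.Nonempty := by
      refine ⟨_, Set.univ, rfl, fun g => ⟨fun n => g n + 1, Set.mem_univ _, fun h => ?_⟩⟩
      obtain ⟨n, hn⟩ := h.exists
      exact absurd hn (Nat.not_succ_le_self _)
    obtain ⟨F, hF, hF'⟩ := csInf_mem hb
    have h1 : addC (SI I ε) ≤ #((fun f => infSet I (Φ f)) '' F) := by
      refine csInf_le' ⟨_, ?_, rfl, ?_⟩
      · rintro _ ⟨f, _, rfl⟩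
        exact ⟨Φ f, hΦ f, Subset.rfl⟩
      · rintro ⟨ψ, hψ, hsub⟩
        obtain ⟨f, hf, hf'⟩ := hF' (G ψ)
        have hmem : infSet I (Φ f) ∈ (fun f => infSet I (Φ f)) '' F := ⟨f, hf, rfl⟩
        exact hf' (hG' f ψ hψ ((subset_sUnion_of_mem hmem).trans hsub))
    refine h1.trans (Cardinal.mk_image_le.trans ?_)
    rw [hF]
    exact le_rfl
  · -- `cov(N) ≤ cov(S)`
    refine le_csInf ⟨_, Set.range fun x : Cantor => ({x} : Set Cantor), ?_, rfl, ?_⟩ ?_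
    · rintro _ ⟨x, rfl⟩
      exact hsing x
    · exact Set.eq_univ_of_forall fun x => ⟨{x}, ⟨x, rfl⟩, rfl⟩
    · rintro κ ⟨F, hF, hκ, hU⟩
      exact csInf_le' ⟨F, hF.trans hSN, hκ, hU⟩
  · -- `cov(S) ≤ non(M)`
    refine le_csInf ⟨_, Set.univ, univ_not_meagre, rfl⟩ ?_
    rintro κ ⟨Y, hY, rfl⟩
    have h1 : covC (SI I ε) ≤ #((fun y => infSet I (tr I φ₀ y)) '' Y) := by
      refine csInf_le' ⟨_, ?_, rfl, ?_⟩
      · rintro _ ⟨y, _, rfl⟩
        exact ⟨tr I φ₀ y, tr_sig hφ₀ y, Subset.rfl⟩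
      · refine Set.eq_univ_of_forall fun x => ?_
        by_contra hx
        refine hY ?_
        have h2 : Y ⊆ (infSet I (tr I φ₀ x))ᶜ := by
          intro y hy hyx
          exact hx ⟨_, ⟨y, hy, rfl⟩, (tr_symm I φ₀ x y).2 hyx⟩
        have h3 : (infSet I (tr I φ₀ x))ᶜ ∈ MM :=
          (meagre_iff _).2 (specRES I hI _ (tr_ne hne x))
        exact IsMeagre.mono h2 h3
    exact h1.trans Cardinal.mk_image_le
  · -- `cov(M) ≤ non(S)`
    refine le_csInf ⟨_, Set.univ, fun h => univ_not_null (hSN h), rfl⟩ ?_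
    rintro κ ⟨X, hX, rfl⟩
    have h1 : covC MM ≤ #((fun x => (infSet I (tr I φ₀ x))ᶜ) '' X) := by
      refine csInf_le' ⟨_, ?_, rfl, ?_⟩
      · rintro _ ⟨x, _, rfl⟩
        exact (meagre_iff _).2 (specRES I hI _ (tr_ne hne x))
      · refine Set.eq_univ_of_forall fun z => ?_
        by_contra hz
        refine hX ⟨tr I φ₀ z, tr_sig hφ₀ z, fun x hx => ?_⟩
        refine (tr_symm I φ₀ x z).2 ?_
        by_contra hzx
        exact hz ⟨_, ⟨x, hx, rfl⟩, hzx⟩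
    exact h1.trans Cardinal.mk_image_le
  · -- `non(S) ≤ non(N)`
    refine le_csInf ⟨_, Set.univ, univ_not_null, rfl⟩ ?_
    rintro κ ⟨A, hA, hκ⟩
    exact csInf_le' ⟨A, fun h => hA (hSN h), hκ⟩
  · -- `d ≤ cof(S)`
    refine le_csInf ⟨_, SI I ε, Subset.rfl, rfl, fun A hA => ⟨A, hA, Subset.rfl⟩⟩ ?_
    rintro κ ⟨F, hF, rfl, hcof⟩
    have h1 : ∀ B : F, ∃ ψ : ∀ n, Set ((I n) → Bool), Sig I ε ψ ∧ B.1 ⊆ infSet I ψ :=
      fun B => hF B.2
    choose ψ hψ hψ' using h1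
    have h2 : dNum ≤ #(Set.range fun B : F => G (ψ B)) := by
      refine csInf_le' ⟨_, rfl, fun g => ?_⟩
      obtain ⟨B, hB, hB'⟩ := hcof (infSet I (Φ g)) ⟨Φ g, hΦ g, Subset.rfl⟩
      exact ⟨_, ⟨⟨B, hB⟩, rfl⟩, hG' g _ (hψ ⟨B, hB⟩) (hB'.trans (hψ' ⟨B, hB⟩))⟩
    exact h2.trans Cardinal.mk_range_le

end Pool.Agent.Lib.MP2148a5
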