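import Pool.Agent.Lib.MP_2148a5_lc.Spec

/-!
# MP_2148a5_lc: module INC
-/

set_option autoImplicit false

namespace Pool.Agent.Lib.MP2148a5

open Set Filter Topology MeasureTheory Cardinal

namespace INCM

/-- glue words to a point of the Cantor space -/
theorem glue (I : ℕ → Finset ℕ) (hI : IsIntPart I) (w : ∀ n, (I n) → Bool) :
    ∃ x : Cantor, ∀ n, res I x n = w n := by
  choose idx hidx using hI.cover
  refine ⟨fun i => w (idx i) ⟨i, hidx i⟩, fun n => ?_⟩
  funext i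
  have h1 : idx i.1 = n := by
    by_contra h
    exact Finset.disjoint_left.1 (hI.disj _ _ h) (hidx i.1) i.2
  have h2 : ∀ (m : ℕ) (hm : i.1 ∈ I m), m = n → w m ⟨i.1, hm⟩ = w n i := by
    rintro m hm rfl
    rfl
  exact h2 _ (hidx i.1) h1

/-- `ψ n` is small for large `n` -/
theorem small (I : ℕ → Finset ℕ) (ε : ℕ → ℝ) (hε : ∀ n, 0 < ε n) (hs : Summable ε)
    (ψ : ∀ n, Set ((I n) → Bool)) (hψ : Sig I ε ψ) :
    ∀ᶠ n in atTop, (ψ n).ncard < 2 ^ (I n).card := by
  have h1 : ∀ᶠ n in atTop, ((ψ n).ncard : ℝ) / (2 ^ (I n).card * ε n) < 1 :=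
    hψ.eventually_lt_const one_pos
  have h2 : ∀ᶠ n in atTop, ε n < 1 := hs.tendsto_atTop_zero.eventually_lt_const one_pos
  filter_upwards [h1, h2] with n hn hn'
  have h3 : (0 : ℝ) < 2 ^ (I n).card * ε n := by
    have := hε n
    positivity
  rw [div_lt_one h3] at hn
  have h4 : ((ψ n).ncard : ℝ) < 2 ^ (I n).card := by
    have h5 : (2 : ℝ) ^ (I n).card * ε n ≤ 2 ^ (I n).card * 1 :=
      mul_le_mul_of_nonneg_left hn'.le (by positivity)
    linarith
  exact_mod_cast h4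

theorem exists_not_mem (I : ℕ → Finset ℕ) (n : ℕ) (A : Set ((I n) → Bool))
    (h : A.ncard < 2 ^ (I n).card) : ∃ w, w ∉ A := by
  by_contra hc
  push Not at hc
  have h1 : A = Set.univ := Set.eq_univ_of_forall hc
  rw [h1, Set.ncard_univ] at h
  simp at h

end INCM

open INCM in
theorem specINC : SpecINC := by
  intro I ε hI hε hs φ ψ hψ hsub
  by_contra hc
  have hc' : ∃ᶠ n in atTop, ¬ φ n ⊆ ψ n := by
    simpa [Filter.Frequently] using hc
  have h1 := small I ε hε hs ψ hψ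
  classical
  have h2 : ∀ n, ∃ w : (I n) → Bool, ((¬ φ n ⊆ ψ n) → w ∈ φ n ∧ w ∉ ψ n) ∧
      ((ψ n).ncard < 2 ^ (I n).card → w ∉ ψ n) := by
    intro n
    by_cases h : φ n ⊆ ψ n
    · by_cases h' : (ψ n).ncard < 2 ^ (I n).card
      · obtain ⟨w, hw⟩ := exists_not_mem I n (ψ n) h'
        exact ⟨w, fun h'' => absurd h h'', fun _ => hw⟩
      · exact ⟨fun _ => true, fun h'' => absurd h h'', fun h'' => absurd h'' h'⟩
    · obtain ⟨w, hw, hw'⟩ := Set.not_subset.1 h
      exact ⟨w, fun _ => ⟨hw, hw'⟩, fun _ => hw'⟩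
  choose w hw1 hw2 using h2
  obtain ⟨x, hx⟩ := glue I hI w
  have hx1 : x ∈ infSet I φ := by
    refine hc'.mono fun n hn => ?_
    rw [hx n]
    exact (hw1 n hn).1
  have hx2 : x ∉ infSet I ψ := by
    intro hx2
    obtain ⟨n, hn, hn'⟩ := (Frequently.and_eventually hx2 h1).exists
    rw [hx n] at hn
    exact hw2 n hn' hn
  exact hx2 (hsub hx1)

end Pool.Agent.Lib.MP2148a5
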