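import Pool.Agent.Lib.MP_2148a5_lc.Spec

/-!
# MP_2148a5_lc: module NUL
-/

set_option autoImplicit false

namespace Pool.Agent.Lib.MP2148a5

open Set Filter Topology MeasureTheory Cardinal

namespace NULM

theorem coin_sing (b : Bool) : coin {b} = 2⁻¹ := by
  rw [coin, Measure.smul_apply, Measure.count_singleton, smul_eq_mul, mul_one]

theorem pi_sing {s : Finset ℕ} (w : s → Bool) :
    Measure.pi (fun _ : s => coin) {w} = 2⁻¹ ^ s.card := by
  rw [Measure.pi_singleton]
  simp [coin_sing]

theorem pi_set {s : Finset ℕ} (A : Set (s → Bool)) :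
    Measure.pi (fun _ : s => coin) A = (A.ncard : ENNReal) * 2⁻¹ ^ s.card := by
  have hf : A.Finite := Set.toFinite A
  have h1 : A = ⋃ w ∈ hf.toFinset, {w} := by
    ext w
    simp
  have h2 : Measure.pi (fun _ : s => coin) A = ∑ w ∈ hf.toFinset,
      Measure.pi (fun _ : s => coin) {w} := by
    conv_lhs => rw [h1]
    refine measure_biUnion_finset ?_ fun w _ => measurableSet_singleton w
    intro a _ b _ hab
    exact Set.disjoint_singleton.2 hab
  rw [h2, Finset.sum_congr rfl fun w _ => pi_sing w, Finset.sum_const, nsmul_eq_mul,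
    Set.ncard_eq_toFinset_card A hf]

theorem meas_res (I : ℕ → Finset ℕ) (n : ℕ) (A : Set ((I n) → Bool)) :
    coinMeas {x : Cantor | res I x n ∈ A} = (A.ncard : ENNReal) * 2⁻¹ ^ (I n).card := by
  have h := Measure.infinitePi_cylinder (μ := fun _ : ℕ => coin) (s := I n) (S := A)
    (Set.toFinite A).measurableSet
  rw [← pi_set]
  exact h

end NULM

open NULM in
theorem specNUL : SpecNUL := by
  intro I ε hI hε hs φ hφ
  refine measure_setOfPred_frequently_eq_zero ?_
  -- the quotients are bounded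
  obtain ⟨C, hC⟩ := hφ.bddAbove_range
  have hC0 : 0 ≤ C := by
    have := hC ⟨0, rfl⟩
    refine le_trans ?_ this
    have := hε 0
    positivity
  have h1 : ∀ n, coinMeas {x : Cantor | res I x n ∈ φ n} ≤ ENNReal.ofReal (C * ε n) := by
    intro n
    rw [meas_res]
    have h2 : ((φ n).ncard : ℝ) / (2 ^ (I n).card * ε n) ≤ C := hC ⟨n, rfl⟩
    have h3 : (0 : ℝ) < 2 ^ (I n).card * ε n := by
      have := hε n
      positivity
    rw [div_le_iff₀ h3] at h2
    have h4 : ((φ n).ncard : ℝ) * (2⁻¹ ^ (I n).card) ≤ C * ε n := by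
      rw [inv_pow, ← div_eq_mul_inv, div_le_iff₀ (by positivity)]
      linarith
    refine le_trans (le_of_eq ?_) (ENNReal.ofReal_le_ofReal h4)
    rw [ENNReal.ofReal_mul (by positivity), ENNReal.ofReal_natCast, ENNReal.ofReal_pow (by positivity),
      ENNReal.ofReal_inv_of_pos (by norm_num)]
    simp
  refine ne_top_of_le_ne_top ?_ (ENNReal.tsum_le_tsum h1)
  exact (hs.mul_left C).tsum_ofReal_ne_top

end Pool.Agent.Lib.MP2148a5
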