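import Mathlib

/-!
# MP_2148a5_lc: the ideals `S_{I,ε}` in Cichoń's diagram: definitions and modules

THEOREM (ZFC).  For all `I`, `ε` such that `S = S_{I,ε}` contains all singletons:
`add(S) ≤ b`, `cov(N) ≤ cov(S) ≤ non(M)`, `cov(M) ≤ non(S) ≤ non(N)`, `d ≤ cof(S)`.
(So in a model of `b < cov(N)`, `non(M) < cov(M)`, `non(N) < d` the four cardinals of `S_{I,ε}` are
pairwise different for all `I`, `ε`; such models are published.)

Files `Pool/Agent/Lib/MP_2148a5_lc/XXX.lean`, `import Pool.Agent.Lib.MP_2148a5_lc.Spec`, namespace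
`Pool.Agent.Lib.MP2148a5`, `theorem specXXX : SpecXXX`, own lemmas in `namespace XXXM`.
-/

set_option autoImplicit false

namespace Pool.Agent.Lib.MP2148a5

open Set Filter Topology MeasureTheory Cardinal

/-- the Cantor space -/
abbrev Cantor : Type := ℕ → Bool

/-- `I` is a sequence of finite nonempty intervals which partition `ℕ` (in any order) -/
structure IsIntPart (I : ℕ → Finset ℕ) : Prop where
  ne : ∀ n, (I n).Nonempty
  conn : ∀ n, ∀ i ∈ I n, ∀ j ∈ I n, ∀ k, i ≤ k → k ≤ j → k ∈ I n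
  disj : ∀ m n, m ≠ n → Disjoint (I m) (I n)
  cover : ∀ k, ∃ n, k ∈ I n

/-- the restriction of `x` to `I n` -/
def res (I : ℕ → Finset ℕ) (x : Cantor) (n : ℕ) : (I n) → Bool := fun i => x i.1

/-- `[φ]_∞` -/
def infSet (I : ℕ → Finset ℕ) (φ : ∀ n, Set ((I n) → Bool)) : Set Cantor :=
  {x | ∃ᶠ n in atTop, res I x n ∈ φ n}

/-- `φ ∈ Σ_{I,ε}` -/
def Sig (I : ℕ → Finset ℕ) (ε : ℕ → ℝ) (φ : ∀ n, Set ((I n) → Bool)) : Prop :=
  Tendsto (fun n => ((φ n).ncard : ℝ) / (2 ^ (I n).card * ε n)) atTop (𝓝 0)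

/-- the ideal `S_{I,ε}` -/
def SI (I : ℕ → Finset ℕ) (ε : ℕ → ℝ) : Set (Set Cantor) :=
  {X | ∃ φ : ∀ n, Set ((I n) → Bool), Sig I ε φ ∧ X ⊆ infSet I φ}

/-- the fair coin -/
noncomputable def coin : Measure Bool := (2⁻¹ : ENNReal) • Measure.count

instance : IsProbabilityMeasure coin := by
  constructor
  have h : (2⁻¹ : ENNReal) * 2 = 1 := ENNReal.inv_mul_cancel (by norm_num) (by norm_num)
  rw [coin, Measure.smul_apply, Measure.count_apply_finite _ (Set.toFinite _), smul_eq_mul]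
  simpa using h

/-- the coin flipping measure on the Cantor space -/
noncomputable def coinMeas : Measure Cantor := Measure.infinitePi fun _ : ℕ => coin

/-- the null ideal `N` -/
def NN : Set (Set Cantor) := {A | coinMeas A = 0}

/-- the meager ideal `M` -/
def MM : Set (Set Cantor) := {A | IsMeagre A}

/-- `add(J)` -/
noncomputable def addC {α : Type} (J : Set (Set α)) : Cardinal :=
  sInf {κ | ∃ F : Set (Set α), F ⊆ J ∧ #F = κ ∧ ⋃₀ F ∉ J}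

/-- `cov(J)` -/
noncomputable def covC {α : Type} (J : Set (Set α)) : Cardinal :=
  sInf {κ | ∃ F : Set (Set α), F ⊆ J ∧ #F = κ ∧ ⋃₀ F = Set.univ}

/-- `non(J)` -/
noncomputable def nonC {α : Type} (J : Set (Set α)) : Cardinal :=
  sInf {κ | ∃ A : Set α, A ∉ J ∧ #A = κ}

/-- `cof(J)` -/
noncomputable def cofC {α : Type} (J : Set (Set α)) : Cardinal :=
  sInf {κ | ∃ F : Set (Set α), F ⊆ J ∧ #F = κ ∧ ∀ A ∈ J, ∃ B ∈ F, A ⊆ B}

/-- the bounding number -/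
noncomputable def bNum : Cardinal :=
  sInf {κ | ∃ F : Set (ℕ → ℕ), #F = κ ∧ ∀ g : ℕ → ℕ, ∃ f ∈ F, ¬ ∀ᶠ n in atTop, f n ≤ g n}

/-- the dominating number -/
noncomputable def dNum : Cardinal :=
  sInf {κ | ∃ F : Set (ℕ → ℕ), #F = κ ∧ ∀ g : ℕ → ℕ, ∃ f ∈ F, ∀ᶠ n in atTop, g n ≤ f n}

/-- NUL.  Proof: `|φ n| ≤ 2^|I n| ε n` for large `n`, so the measure of `{x : x|I_n ∈ φ n}`, which is
`|φ n| / 2^|I n|`, is `≤ ε n`; Borel-Cantelli (`measure_setOf_frequently_eq_zero`). -/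
def SpecNUL : Prop := ∀ (I : ℕ → Finset ℕ) (ε : ℕ → ℝ), IsIntPart I → (∀ n, 0 < ε n) → Summable ε →
  ∀ φ : ∀ n, Set ((I n) → Bool), Sig I ε φ → coinMeas (infSet I φ) = 0

/-- RES.  Proof: `infSet I φ = ⋂_m ⋃_(n ≥ m) {x : x|I_n ∈ φ n}`, and each union is open and dense:
given `x` and a finite set of coordinates, only finitely many `I n` meet it; take a larger `n` with `φ n`
nonempty and change `x` on `I n`. -/
def SpecRES : Prop := ∀ I : ℕ → Finset ℕ, IsIntPart I → ∀ φ : ∀ n, Set ((I n) → Bool),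
  (∃ᶠ n in atTop, (φ n).Nonempty) → infSet I φ ∈ residual Cantor

/-- INC.  Proof: suppose `φ n ⊄ ψ n` for infinitely many `n`.  Choose `w n ∈ φ n`, `∉ ψ n` for these `n`,
and for the other `n` any `w n ∉ ψ n` if `ψ n` is not everything (true for large `n`, as
`|ψ n| / 2^|I n| ≤ ε n → 0`).  The `x` with `x|I_n = w n` for all `n` is in `infSet I φ`, not in
`infSet I ψ`. -/
def SpecINC : Prop := ∀ (I : ℕ → Finset ℕ) (ε : ℕ → ℝ), IsIntPart I → (∀ n, 0 < ε n) → Summable ε →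
  ∀ φ ψ : ∀ n, Set ((I n) → Bool), Sig I ε ψ → infSet I φ ⊆ infSet I ψ → ∀ᶠ n in atTop, φ n ⊆ ψ n

/-- TUK.  Let `h n = 2^|I n| ε n`, unbounded: there are `n_0 < n_1 < ...` with `h (n_k) ≥ k + 1`.  For
`f : ℕ → ℕ` let `F j = ∑_(i < j) (f i + 1)` (strictly increasing, `F 0 = 0`, `F j ≥ j`), `J k` = the largest
`j ≤ k` with `F j ≤ k`; so `J k → ∞`.  `Φ f n` is a subset of `2^(I n)` of size
`min (2^|I n|) ⌊h (n_k) / (J k + 1)⌋` for `n = n_k`, and empty for the other `n`.  Then `Sig (Φ f)`.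
`G ψ j` = a `K` with `|ψ (n_k)| / h (n_k) < 1/(2(j+1))` for all `k ≥ K`.  If `Φ f n ⊆ ψ n` for almost all `n`
then for large `k`: `min (2^|I|) ⌊h/(J k + 1)⌋ ≤ |ψ (n_k)| < 2^|I|`, so `⌊h/(J k + 1)⌋ ≤ |ψ (n_k)|`,
and `⌊y⌋ > y / 2` for `y = h/(J k + 1) ≥ 1`; so `1/(2 (J k + 1)) < |ψ (n_k)| / h (n_k)`.  For large `j` apply
this to `k = F (j + 1) - 1 = F j + f j`: `J k = j`; so `k < G ψ j` and `f j ≤ k`. -/
def SpecTUK : Prop := ∀ (I : ℕ → Finset ℕ) (ε : ℕ → ℝ), IsIntPart I → (∀ n, 0 < ε n) → Summable ε →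
  (∀ C : ℝ, ∃ᶠ n in atTop, C ≤ 2 ^ (I n).card * ε n) →
  ∃ (Φ : (ℕ → ℕ) → ∀ n, Set ((I n) → Bool)) (G : (∀ n, Set ((I n) → Bool)) → ℕ → ℕ),
    (∀ f, Sig I ε (Φ f)) ∧
    ∀ f ψ, Sig I ε ψ → (∀ᶠ n in atTop, Φ f n ⊆ ψ n) → ∀ᶠ n in atTop, f n ≤ G ψ n

/-- CAR.  The theorem from NUL, RES, INC, TUK. -/
def SpecCAR : Prop := ∀ (I : ℕ → Finset ℕ) (ε : ℕ → ℝ), IsIntPart I → (∀ n, 0 < ε n) → Summable ε →
  (∀ x : Cantor, {x} ∈ SI I ε) →
  addC (SI I ε) ≤ bNum ∧ (covC NN ≤ covC (SI I ε) ∧ covC (SI I ε) ≤ nonC MM) ∧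
    (covC MM ≤ nonC (SI I ε) ∧ nonC (SI I ε) ≤ nonC NN) ∧ dNum ≤ cofC (SI I ε)

end Pool.Agent.Lib.MP2148a5
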